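import Mathlib
import Pool.Agent.Shared.PolyTime.Enc

/-! Straight-line drawings, stacking casings and switches. -/

set_option autoImplicit false

namespace Pool.Agent.Lib.MP_b4992a_lc.St

open Pool.Agent.Shared.PolyTime

/-- Points with natural-number coordinates. -/
abbrev Pt : Type := ℕ × ℕ

/-- An edge drawn as a straight segment, given by its two endpoints. -/
abbrev Seg : Type := Pt × Pt

/-- The point of the plane at parameter `t` on the segment `e`. -/
def pt (e : Seg) (t : ℝ) : ℝ × ℝ :=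
  ((1 - t) * (e.1.1 : ℝ) + t * (e.2.1 : ℝ), (1 - t) * (e.1.2 : ℝ) + t * (e.2.2 : ℝ))

/-- The point at parameter `t` on `e` is the point at parameter `s` on `f`. -/
def Meet (e f : Seg) (t s : ℝ) : Prop := 0 ≤ t ∧ t ≤ 1 ∧ 0 ≤ s ∧ s ≤ 1 ∧ pt e t = pt f s

/-- The edge `f` crosses the edge `e` at parameter `t` of `e`: a common interior point. -/
def Cross (e f : Seg) (t : ℝ) : Prop :=
  e ≠ f ∧ 0 < t ∧ t < 1 ∧ ∃ s : ℝ, 0 < s ∧ s < 1 ∧ pt e t = pt f s

/-- The vertices are the endpoints of the edges. -/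
def IsVertex (E : List Seg) (p : Pt) : Prop := ∃ e ∈ E, p = e.1 ∨ p = e.2

/-- The graph that is drawn. -/
def graph (E : List Seg) : SimpleGraph Pt := SimpleGraph.fromRel fun p q => (p, q) ∈ E

/-- Straight-line drawings of connected simple graphs, in general position. -/
structure Drawing : Type where
  /-- the list of edges -/
  E : List Seg
  nodup : E.Nodup
  noLoop : ∀ e ∈ E, e.1 ≠ e.2
  meetOnce : ∀ e ∈ E, ∀ f ∈ E, e ≠ f → ∀ t s t' s' : ℝ, Meet e f t s → Meet e f t' s' → t = t'
  noVertex : ∀ e ∈ E, ∀ f ∈ E, ∀ t : ℝ, 0 < t → t < 1 → pt e t ≠ pt f 0 ∧ pt e t ≠ pt f 1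
  noTriple : ∀ e ∈ E, ∀ f ∈ E, ∀ g ∈ E, ∀ t : ℝ, Cross e f t → Cross e g t → f = g
  connected : ∀ p q : Pt, IsVertex E p → IsVertex E q → (graph E).Reachable p q

/-- For the stacking order given by the heights `h`: the crossings at parameters `t < u` of `e`
are consecutive along `e`, and `e` is the bridge at exactly one of them. -/
def Switch (E : List Seg) (h : Seg → ℕ) (e : Seg) (t u : ℝ) : Prop :=
  t < u ∧ (∀ g ∈ E, ∀ v : ℝ, Cross e g v → v ≤ t ∨ u ≤ v) ∧
    ∃ f ∈ E, ∃ g ∈ E, Cross e f t ∧ Cross e g u ∧ ¬ (h f < h e ↔ h g < h e)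

/-- The number of switches on `e`. -/
noncomputable def switches (E : List Seg) (h : Seg → ℕ) (e : Seg) : ℕ∞ :=
  Set.encard {p : ℝ × ℝ | Switch E h e p.1 p.2}

/-- There is a stacking casing with at most `K` switches on every edge. -/
def Yes (K : ℕ) (D : Drawing) : Prop :=
  ∃ h : Seg → ℕ, Set.InjOn h {e | e ∈ D.E} ∧ ∀ e ∈ D.E, switches D.E h e ≤ (K : ℕ∞)

/-- Encoding of a point (coordinates in unary). -/
def encPt (p : Pt) : List Bool := encPair (encNat p.1) (encNat p.2)

/-- Encoding of a segment. -/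
def encSeg (e : Seg) : List Bool := encPair (encPt e.1) (encPt e.2)

/-- Encoding of a drawing as a binary string. -/
def encDrawing (D : Drawing) : List Bool := encList encSeg D.E

end Pool.Agent.Lib.MP_b4992a_lc.St
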