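import Pool.Agent.Lib.MP_b4992a_lc.St.Grid

/-! The gadgets: what a stacking order without alternations forces, and conversely. -/

set_option autoImplicit false

namespace Pool.Agent.Lib.MP_b4992a_lc.St

attribute [local irreducible] seg

theorem ar_dart {g1 g2 g3 g4 w : ℕ}
    (h1 : ((g2 < g1 ↔ w < g1) ∨ (w < g1 ↔ g4 < g1)) ∧ g2 ≠ g1 ∧ w ≠ g1 ∧ g4 ≠ g1)
    (h2 : ((g1 < g2 ↔ w < g2) ∨ (w < g2 ↔ g3 < g2)) ∧ g1 ≠ g2 ∧ w ≠ g2 ∧ g3 ≠ g2)
    (h3 : ((g4 < g3 ↔ w < g3) ∨ (w < g3 ↔ g2 < g3)) ∧ g4 ≠ g3 ∧ w ≠ g3 ∧ g2 ≠ g3)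
    (h4 : ((g3 < g4 ↔ w < g4) ∨ (w < g4 ↔ g1 < g4)) ∧ g3 ≠ g4 ∧ w ≠ g4 ∧ g1 ≠ g4)
    (h5 : ((g1 < w ↔ g2 < w) ∨ (g2 < w ↔ g4 < w)) ∧ g1 ≠ w ∧ g2 ≠ w ∧ g4 ≠ w)
    (h6 : ((g1 < w ↔ g3 < w) ∨ (g3 < w ↔ g4 < w)) ∧ g1 ≠ w ∧ g3 ≠ w ∧ g4 ≠ w) :
    (g1 < g4 → g1 < w ∧ w < g4) ∧ (¬ g1 < g4 → g4 < w ∧ w < g1) := by
  omega

theorem ar_right {g1 g4 w x : ℕ}
    (hd : (g1 < g4 → g1 < w ∧ w < g4) ∧ (¬ g1 < g4 → g4 < w ∧ w < g1))
    (h : ((g1 < w ↔ g4 < w) ∨ (g4 < w ↔ x < w)) ∧ g1 ≠ w ∧ g4 ≠ w ∧ x ≠ w) :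
    (w < x ↔ g1 < g4) := by
  omega

theorem ar_left {g1 g4 w x : ℕ}
    (hd : (g1 < g4 → g1 < w ∧ w < g4) ∧ (¬ g1 < g4 → g4 < w ∧ w < g1))
    (h : ((x < w ↔ g1 < w) ∨ (g1 < w ↔ g4 < w)) ∧ x ≠ w ∧ g1 ≠ w ∧ g4 ≠ w) :
    (w < x ↔ ¬ g1 < g4) := by
  omega

/-- The data of a good stacking order of the grid. -/
structure Good (N M : ℕ) (P : ℕ → ℕ → ℕ → Bool) (h : Seg → ℕ) : Prop where
  always : ∀ i j k, k < 21 → P i j k = true
  inj : Set.InjOn h {e | e ∈ gridE N M P}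
  noAlt : ∀ e ∈ gridE N M P, NoAlt (gridE N M P) h e

/-- state of the column wire -/
def sH (h : Seg → ℕ) (i j : ℕ) : Prop := h (seg i j 0) < h (seg i j 3)

/-- state of the row wires -/
def sR (h : Seg → ℕ) (i j : ℕ) : Prop := h (seg i j 5) < h (seg i j 8)

namespace Good

variable {N M : ℕ} {P : ℕ → ℕ → ℕ → Bool} {h : Seg → ℕ} (G : Good N M P h)

include G

theorem na (i j : ℕ) (e a b c : ℕ × ℕ × ℕ) (ho : ord3 e a b c = true)
    (me : seg (i + e.2.2) (j + e.2.1) e.1 ∈ gridE N M P)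
    (ma : seg (i + a.2.2) (j + a.2.1) a.1 ∈ gridE N M P)
    (mb : seg (i + b.2.2) (j + b.2.1) b.1 ∈ gridE N M P)
    (mc : seg (i + c.2.2) (j + c.2.1) c.1 ∈ gridE N M P) :
    ((h (seg (i + a.2.2) (j + a.2.1) a.1) < h (seg (i + e.2.2) (j + e.2.1) e.1) ↔
        h (seg (i + b.2.2) (j + b.2.1) b.1) < h (seg (i + e.2.2) (j + e.2.1) e.1)) ∨
      (h (seg (i + b.2.2) (j + b.2.1) b.1) < h (seg (i + e.2.2) (j + e.2.1) e.1) ↔
        h (seg (i + c.2.2) (j + c.2.1) c.1) < h (seg (i + e.2.2) (j + e.2.1) e.1))) ∧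
    h (seg (i + a.2.2) (j + a.2.1) a.1) ≠ h (seg (i + e.2.2) (j + e.2.1) e.1) ∧
    h (seg (i + b.2.2) (j + b.2.1) b.1) ≠ h (seg (i + e.2.2) (j + e.2.1) e.1) ∧
    h (seg (i + c.2.2) (j + c.2.1) c.1) ≠ h (seg (i + e.2.2) (j + e.2.1) e.1) := by
  simp only [ord3, Bool.and_eq_true, decide_eq_true_eq] at ho
  obtain ⟨⟨⟨⟨h1, h2⟩, h3⟩, h4⟩, h5⟩ := ho
  have c1 := cross_of_xM i j h1
  have c2 := cross_of_xM i j h2
  have c3 := cross_of_xM i j h3
  exact ⟨G.noAlt _ me _ ma _ mb _ mc _ _ _ c1 c2 c3 (by exact_mod_cast h4) (by exact_mod_cast h5),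
    fun hh => c1.1 (G.inj me ma hh.symm), fun hh => c2.1 (G.inj me mb hh.symm),
    fun hh => c3.1 (G.inj me mc hh.symm)⟩

theorem memA {i j : ℕ} (hi : i < N) (hj : j < M) (k : ℕ) (hk : k < 21) :
    seg i j k ∈ gridE N M P :=
  mem_gridE.2 ⟨i, j, k, hi, hj, by omega, G.always i j k hk, rfl⟩

theorem dart {i j : ℕ} (hi : i < N) (hj : j < M) (g1 g2 g3 g4 w : ℕ)
    (hk : g1 < 21 ∧ g2 < 21 ∧ g3 < 21 ∧ g4 < 21 ∧ w < 21)
    (ho : ord3 (g1, 0, 0) (g2, 0, 0) (w, 0, 0) (g4, 0, 0) = true ∧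
      ord3 (g2, 0, 0) (g1, 0, 0) (w, 0, 0) (g3, 0, 0) = true ∧
      ord3 (g3, 0, 0) (g4, 0, 0) (w, 0, 0) (g2, 0, 0) = true ∧
      ord3 (g4, 0, 0) (g3, 0, 0) (w, 0, 0) (g1, 0, 0) = true ∧
      ord3 (w, 0, 0) (g1, 0, 0) (g2, 0, 0) (g4, 0, 0) = true ∧
      ord3 (w, 0, 0) (g1, 0, 0) (g3, 0, 0) (g4, 0, 0) = true) :
    (h (seg i j g1) < h (seg i j g4) →
      h (seg i j g1) < h (seg i j w) ∧ h (seg i j w) < h (seg i j g4)) ∧
    (¬ h (seg i j g1) < h (seg i j g4) →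
      h (seg i j g4) < h (seg i j w) ∧ h (seg i j w) < h (seg i j g1)) := by
  have m1 := G.memA hi hj g1 hk.1
  have m2 := G.memA hi hj g2 hk.2.1
  have m3 := G.memA hi hj g3 hk.2.2.1
  have m4 := G.memA hi hj g4 hk.2.2.2.1
  have mw := G.memA hi hj w hk.2.2.2.2
  obtain ⟨o1, o2, o3, o4, o5, o6⟩ := ho
  exact ar_dart (G.na i j _ _ _ _ o1 m1 m2 mw m4) (G.na i j _ _ _ _ o2 m2 m1 mw m3)
    (G.na i j _ _ _ _ o3 m3 m4 mw m2) (G.na i j _ _ _ _ o4 m4 m3 mw m1)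
    (G.na i j _ _ _ _ o5 mw m1 m2 m4) (G.na i j _ _ _ _ o6 mw m1 m3 m4)

theorem extH0 {i j : ℕ} (hi : i < N) (hj : j < M) (x : ℕ) (mx : seg i j x ∈ gridE N M P)
    (ho : ord3 (4, 0, 0) (0, 0, 0) (3, 0, 0) (x, 0, 0) = true) :
    h (seg i j 4) < h (seg i j x) ↔ sH h i j :=
  ar_right (G.dart hi hj 0 1 2 3 4 (by decide) (by decide +kernel))
    (G.na i j _ _ _ _ ho (G.memA hi hj 4 (by decide)) (G.memA hi hj 0 (by decide))
      (G.memA hi hj 3 (by decide)) mx)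

theorem extH1 {i j : ℕ} (hi : i + 1 < N) (hj : j < M) (x : ℕ) (mx : seg i j x ∈ gridE N M P)
    (ho : ord3 (4, 0, 1) (0, 0, 1) (3, 0, 1) (x, 0, 0) = true) :
    h (seg (i + 1) j 4) < h (seg i j x) ↔ sH h (i + 1) j :=
  ar_right (G.dart hi hj 0 1 2 3 4 (by decide) (by decide +kernel))
    (G.na i j _ _ _ _ ho (G.memA hi hj 4 (by decide)) (G.memA hi hj 0 (by decide))
      (G.memA hi hj 3 (by decide)) mx)

theorem extR {i j : ℕ} (hi : i < N) (hj : j < M) (x dx : ℕ) (mx : seg i (j + dx) x ∈ gridE N M P)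
    (ho : ord3 (9, 0, 0) (5, 0, 0) (8, 0, 0) (x, dx, 0) = true) :
    h (seg i j 9) < h (seg i (j + dx) x) ↔ sR h i j :=
  ar_right (G.dart hi hj 5 6 7 8 9 (by decide) (by decide +kernel))
    (G.na i j _ _ _ _ ho (G.memA hi hj 9 (by decide)) (G.memA hi hj 5 (by decide))
      (G.memA hi hj 8 (by decide)) mx)

theorem extL {i j : ℕ} (hi : i < N) (hj : j + 1 < M) (x : ℕ) (mx : seg i j x ∈ gridE N M P)
    (ho : ord3 (10, 1, 0) (x, 0, 0) (5, 1, 0) (8, 1, 0) = true) :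
    h (seg i (j + 1) 10) < h (seg i j x) ↔ ¬ sR h i (j + 1) :=
  ar_left (G.dart hi hj 5 6 7 8 10 (by decide) (by decide +kernel))
    (G.na i j _ _ _ _ ho (G.memA hi hj 10 (by decide)) mx (G.memA hi hj 5 (by decide))
      (G.memA hi hj 8 (by decide)))

theorem row {i j : ℕ} (hi : i < N) (hj : j + 1 < M) : sR h i (j + 1) ↔ sR h i j := by
  have hj' : j < M := by omega
  have m9 := G.memA hi hj' 9 (by decide)
  have m10 := G.memA hi hj 10 (by decide)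
  have h1 := G.extR hi hj' 10 1 m10 (by decide +kernel)
  have h2 := G.extL hi hj 9 m9 (by decide +kernel)
  have h3 : h (seg i j 9) ≠ h (seg i (j + 1) 10) := fun hh => by
    have := seg_inj (by decide) (by decide) (G.inj m9 m10 hh)
    simp at this
  rw [← h1]
  constructor
  · intro h4
    have : ¬ h (seg i (j + 1) 10) < h (seg i j 9) := fun h5 => h2.1 h5 h4
    omega
  · intro h4
    by_contra h5
    have := h2.2 h5
    omega

theorem row0 {i : ℕ} (hi : i < N) : ∀ j, j < M → (sR h i j ↔ sR h i 0) := by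
  intro j
  induction j with
  | zero => intro _; rfl
  | succ j ih => intro hj; exact (G.row hi hj).trans (ih (by omega))

theorem gB {i j : ℕ} (hi : i + 1 < N) (hj : j < M) (hp : P i j 21 = true) :
    (sH h i j ↔ sR h i 0) ∨ (sR h i 0 ↔ sH h (i + 1) j) := by
  have hi' : i < N := by omega
  have mx : seg i j 21 ∈ gridE N M P := mem_gridE.2 ⟨i, j, 21, hi', hj, by decide, hp, rfl⟩
  rw [← G.row0 hi' j hj, ← G.extH0 hi' hj 21 mx (by decide +kernel),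
    ← G.extH1 hi hj 21 mx (by decide +kernel), ← G.extR hi' hj 21 0 mx (by decide +kernel)]
  exact (G.na i j (21, 0, 0) (4, 0, 0) (9, 0, 0) (4, 0, 1) (by decide +kernel) mx
    (G.memA hi' hj 4 (by decide)) (G.memA hi' hj 9 (by decide)) (G.memA hi hj 4 (by decide))).1

theorem gC {i j : ℕ} (hi : i + 1 < N) (hj : j + 1 < M) (hp : P i j 22 = true) :
    (sH h i j ↔ ¬ sR h i 0) ∨ (¬ sR h i 0 ↔ sH h (i + 1) j) := by
  have hi' : i < N := by omega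
  have hj' : j < M := by omega
  have mx : seg i j 22 ∈ gridE N M P := mem_gridE.2 ⟨i, j, 22, hi', hj', by decide, hp, rfl⟩
  rw [← G.row0 hi' (j + 1) hj, ← G.extH0 hi' hj' 22 mx (by decide +kernel),
    ← G.extH1 hi hj' 22 mx (by decide +kernel), ← G.extL hi' hj 22 mx (by decide +kernel)]
  exact (G.na i j (22, 0, 0) (4, 0, 0) (10, 1, 0) (4, 0, 1) (by decide +kernel) mx
    (G.memA hi' hj' 4 (by decide)) (G.memA hi' hj 10 (by decide)) (G.memA hi hj' 4 (by decide))).1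

theorem gU {i j : ℕ} (hi : i + 1 < N) (hj : j + 1 < M) (hp : P i j 23 = true) :
    sH h (i + 1) j ↔ sR h i 0 := by
  have hi' : i < N := by omega
  have hj' : j < M := by omega
  have mx : seg i j 23 ∈ gridE N M P := mem_gridE.2 ⟨i, j, 23, hi', hj', by decide, hp, rfl⟩
  have h1 := (G.na i j (23, 0, 0) (10, 1, 0) (9, 0, 0) (4, 0, 1) (by decide +kernel) mx
    (G.memA hi' hj 10 (by decide)) (G.memA hi' hj' 9 (by decide)) (G.memA hi hj' 4 (by decide))).1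
  have h2 := G.extH1 hi hj' 23 mx (by decide +kernel)
  have h3 := G.extL hi' hj 23 mx (by decide +kernel)
  have h4 := G.extR hi' hj' 23 0 mx (by decide +kernel)
  rw [G.row0 hi' (j + 1) hj] at h3
  rw [G.row0 hi' j hj'] at h4
  rcases h1 with h1 | h1
  · exact absurd (h4.symm.trans (h1.symm.trans h3)) iff_not_self
  · exact h2.symm.trans (h1.symm.trans h4)

theorem gD {i j : ℕ} (hi : i < N) (hj : j + 1 < M) (hp : P i j 24 = true) :
    sH h i j ↔ sR h i 0 := by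
  have hj' : j < M := by omega
  have mx : seg i j 24 ∈ gridE N M P := mem_gridE.2 ⟨i, j, 24, hi, hj', by decide, hp, rfl⟩
  have h1 := (G.na i j (24, 0, 0) (10, 1, 0) (9, 0, 0) (4, 0, 0) (by decide +kernel) mx
    (G.memA hi hj 10 (by decide)) (G.memA hi hj' 9 (by decide)) (G.memA hi hj' 4 (by decide))).1
  have h2 := G.extH0 hi hj' 24 mx (by decide +kernel)
  have h3 := G.extL hi hj 24 mx (by decide +kernel)
  have h4 := G.extR hi hj' 24 0 mx (by decide +kernel)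
  rw [G.row0 hi (j + 1) hj] at h3
  rw [G.row0 hi j hj'] at h4
  rcases h1 with h1 | h1
  · exact absurd (h4.symm.trans (h1.symm.trans h3)) iff_not_self
  · exact h2.symm.trans (h1.symm.trans h4)

theorem gE {i j : ℕ} (hi : i < N) (hj : j + 1 < M) (hp : P i j 25 = true) :
    sH h i j ↔ ¬ sR h i 0 := by
  have hj' : j < M := by omega
  have mx : seg i j 25 ∈ gridE N M P := mem_gridE.2 ⟨i, j, 25, hi, hj', by decide, hp, rfl⟩
  have h1 := (G.na i j (25, 0, 0) (9, 0, 0) (10, 1, 0) (4, 0, 0) (by decide +kernel) mx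
    (G.memA hi hj' 9 (by decide)) (G.memA hi hj 10 (by decide)) (G.memA hi hj' 4 (by decide))).1
  have h2 := G.extH0 hi hj' 25 mx (by decide +kernel)
  have h3 := G.extL hi hj 25 mx (by decide +kernel)
  have h4 := G.extR hi hj' 25 0 mx (by decide +kernel)
  rw [G.row0 hi (j + 1) hj] at h3
  rw [G.row0 hi j hj'] at h4
  rcases h1 with h1 | h1
  · exact absurd (h4.symm.trans (h1.trans h3)) iff_not_self
  · exact h2.symm.trans (h1.symm.trans h3)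

end Good

theorem exists_height (E : List Seg) (L : Seg → ℕ) : ∃ h : Seg → ℕ, Set.InjOn h {e | e ∈ E} ∧
    ∀ e ∈ E, ∀ f ∈ E, L f ≠ L e → (h f < h e ↔ L f < L e) := by
  have key : ∀ e ∈ E, ∀ f ∈ E, L f < L e →
      L f * E.length + E.idxOf f < L e * E.length + E.idxOf e := by
    intro e _ f hf hl
    have h1 := List.idxOf_lt_length_of_mem hf
    have h2 : (L f + 1) * E.length ≤ L e * E.length := Nat.mul_le_mul_right _ hl
    rw [Nat.add_mul] at h2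
    omega
  refine ⟨fun e => L e * E.length + E.idxOf e, fun e he f hf hh => ?_, fun e he f hf hne => ?_⟩
  · rcases lt_trichotomy (L e) (L f) with h | h | h
    · exact absurd hh (key f hf e he h).ne
    · simp only [h] at hh
      exact (List.idxOf_inj he).1 (by omega)
    · exact absurd hh (key e he f hf h).ne'
  · refine ⟨fun h => ?_, key e he f hf⟩
    by_contra h'
    have := key f hf e he (by omega)
    simp only at h
    omega

/-- level of a grid segment -/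
def lvl (hs : ℕ → ℕ → Bool) (ys : ℕ → Bool) (a : ℕ × ℕ × ℕ) : ℕ :=
  lv (if a.2.2 < 5 then hs a.1 a.2.1 else ys a.1) a.2.2

theorem lvl_partner (hs : ℕ → ℕ → Bool) (ys : ℕ → Bool) {i j k i' j' k' dx dy r : ℕ} (hk : k < 26)
    (h1 : i' + 1 = i + dy) (h2 : j' + 1 = j + dx) (h3 : ((k', dx, dy), r) ∈ X k) :
    lvl hs ys (i', j', k') = lvE (hs i j) (hs (i + 1) j) (ys i) (k', dx, dy) := by
  obtain ⟨a1, a2⟩ := chk4 k hk _ h3
  dsimp only at a1 a2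
  unfold lvl lvE
  dsimp only
  by_cases c1 : k' < 5
  · obtain ⟨rfl, rfl | rfl⟩ := a1 c1
    · obtain rfl : i' = i := by omega
      obtain rfl : j' = j := by omega
      simp
    · obtain rfl : i' = i + 1 := by omega
      obtain rfl : j' = j := by omega
      simp [c1]
  · by_cases c2 : k' < 11
    · obtain rfl := a2 (by omega) c2
      obtain rfl : i' = i := by omega
      simp [c1]
    · exact lv_fresh _ _ (by omega)

theorem exists_good {N M : ℕ} {P : ℕ → ℕ → ℕ → Bool} (hs : ℕ → ℕ → Bool) (ys : ℕ → Bool)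
    (hc : ∀ i j k, P i j k = true → cnd k (hs i j) (hs (i + 1) j) (ys i) = true) :
    ∃ h : Seg → ℕ, Set.InjOn h {e | e ∈ gridE N M P} ∧
      ∀ e ∈ gridE N M P, NoAlt (gridE N M P) h e := by
  classical
  have hinj : Set.InjOn (fun a : ℕ × ℕ × ℕ => seg a.1 a.2.1 a.2.2) {a | a.2.2 < 26} :=
    fun a ha b hb hab => seg_inj ha hb hab
  let L : Seg → ℕ := fun e =>
    lvl hs ys (Function.invFunOn (fun a : ℕ × ℕ × ℕ => seg a.1 a.2.1 a.2.2) {a | a.2.2 < 26} e)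
  have hL : ∀ i j k, k < 26 → L (seg i j k) = lvl hs ys (i, j, k) := fun i j k hk =>
    congrArg (lvl hs ys) (hinj.leftInvOn_invFunOn (show (i, j, k) ∈ {a : ℕ × ℕ × ℕ | a.2.2 < 26}
      from hk))
  obtain ⟨h, h1, h2⟩ := exists_height (gridE N M P) L
  refine ⟨h, h1, fun e he a ha b hb c hc' t u v x1 x2 x3 htu huv => ?_⟩
  have ha' := ha
  have hb' := hb
  have hc'' := hc'
  have he' := he
  obtain ⟨i, j, k, -, -, hk, hp, rfl⟩ := mem_gridE.1 he'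
  obtain ⟨i1, j1, k1, -, -, hk1, -, rfl⟩ := mem_gridE.1 ha'
  obtain ⟨i2, j2, k2, -, -, hk2, -, rfl⟩ := mem_gridE.1 hb'
  obtain ⟨i3, j3, k3, -, -, hk3, -, rfl⟩ := mem_gridE.1 hc''
  obtain ⟨dx1, dy1, r1, a1, a2, a3, a4⟩ := cross_cases hk hk1 x1
  obtain ⟨dx2, dy2, r2, b1, b2, b3, b4⟩ := cross_cases hk hk2 x2
  obtain ⟨dx3, dy3, r3, c1, c2, c3, c4⟩ := cross_cases hk hk3 x3
  have e0 : L (seg i j k) = lvE (hs i j) (hs (i + 1) j) (ys i) (k, 1, 1) := by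
    rw [hL i j k hk]
    simp [lvl, lvE]
  have e1 := (hL i1 j1 k1 hk1).trans (lvl_partner hs ys hk a1 a2 a4)
  have e2 := (hL i2 j2 k2 hk2).trans (lvl_partner hs ys hk b1 b2 b4)
  have e3 := (hL i3 j3 k3 hk3).trans (lvl_partner hs ys hk c1 c2 c4)
  rw [h2 _ he _ ha (by rw [e0, e1]; exact chk5 k hk _ _ _ _ a4),
    h2 _ he _ hb (by rw [e0, e2]; exact chk5 k hk _ _ _ _ b4),
    h2 _ he _ hc' (by rw [e0, e3]; exact chk5 k hk _ _ _ _ c4), e0, e1, e2, e3]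
  refine chk6 k hk _ _ _ (hc i j k hp) _ a4 _ b4 ((chk2 k hk _ a4 _ b4).1 ?_) _ c4
    ((chk2 k hk _ b4 _ c4).1 ?_)
  · rw [a3, b3] at htu
    exact_mod_cast htu
  · rw [b3, c3] at huv
    exact_mod_cast huv

end Pool.Agent.Lib.MP_b4992a_lc.St
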