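import Pool.Agent.Lib.MP_b4992a_lc.St.Defs

/-! Intersection of two segments by determinants; switches and alternations. -/

set_option autoImplicit false

namespace Pool.Agent.Lib.MP_b4992a_lc.St

/-- determinant of the directions -/
def dD (e f : Seg) : ℤ :=
  ((e.2.1 : ℤ) - e.1.1) * ((f.2.2 : ℤ) - f.1.2) - ((e.2.2 : ℤ) - e.1.2) * ((f.2.1 : ℤ) - f.1.1)

/-- numerator of the parameter on the first segment -/
def dT (e f : Seg) : ℤ :=
  ((f.1.1 : ℤ) - e.1.1) * ((f.2.2 : ℤ) - f.1.2) - ((f.1.2 : ℤ) - e.1.2) * ((f.2.1 : ℤ) - f.1.1)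

/-- numerator of the parameter on the second segment -/
def dS (e f : Seg) : ℤ :=
  ((f.1.1 : ℤ) - e.1.1) * ((e.2.2 : ℤ) - e.1.2) - ((f.1.2 : ℤ) - e.1.2) * ((e.2.1 : ℤ) - e.1.1)

theorem det_eq {e f : Seg} {t s : ℝ} (h : pt e t = pt f s) :
    t * (dD e f : ℝ) = dT e f ∧ s * (dD e f : ℝ) = dS e f := by
  have h1 := congrArg Prod.fst h
  have h2 := congrArg Prod.snd h
  simp only [pt] at h1 h2
  unfold dD dT dS
  push_cast
  constructor
  · linear_combination ((f.2.2 : ℝ) - f.1.2) * h1 - ((f.2.1 : ℝ) - f.1.1) * h2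
  · linear_combination ((e.2.2 : ℝ) - e.1.2) * h1 - ((e.2.1 : ℝ) - e.1.1) * h2

theorem pt_eq_of_det {e f : Seg} {t s : ℝ} (hD : dD e f ≠ 0) (h1 : t * (dD e f : ℝ) = dT e f)
    (h2 : s * (dD e f : ℝ) = dS e f) : pt e t = pt f s := by
  have hD' : (dD e f : ℝ) ≠ 0 := by exact_mod_cast hD
  unfold dD dT at h1
  unfold dD dS at h2
  push_cast at h1 h2
  refine Prod.ext ?_ ?_
  · simp only [pt]
    refine mul_left_cancel₀ hD' ?_
    unfold dD
    push_cast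
    linear_combination ((e.2.1 : ℝ) - e.1.1) * h1 - ((f.2.1 : ℝ) - f.1.1) * h2
  · simp only [pt]
    refine mul_left_cancel₀ hD' ?_
    unfold dD
    push_cast
    linear_combination ((e.2.2 : ℝ) - e.1.2) * h1 - ((f.2.2 : ℝ) - f.1.2) * h2

/-- parameter of the intersection on the first segment -/
def pT (e f : Seg) : ℚ := (dT e f : ℚ) / (dD e f : ℚ)

/-- parameter of the intersection on the second segment -/
def pS (e f : Seg) : ℚ := (dS e f : ℚ) / (dD e f : ℚ)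

theorem par_eq {e f : Seg} {t s : ℝ} (hD : dD e f ≠ 0) (h : pt e t = pt f s) :
    t = (pT e f : ℝ) ∧ s = (pS e f : ℝ) := by
  have hD' : (dD e f : ℝ) ≠ 0 := by exact_mod_cast hD
  obtain ⟨h1, h2⟩ := det_eq h
  unfold pT pS
  push_cast
  exact ⟨eq_div_of_mul_eq hD' h1, eq_div_of_mul_eq hD' h2⟩

theorem pt_par {e f : Seg} (hD : dD e f ≠ 0) : pt e (pT e f : ℝ) = pt f (pS e f : ℝ) := by
  have hD' : (dD e f : ℝ) ≠ 0 := by exact_mod_cast hD
  refine pt_eq_of_det hD ?_ ?_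
  · unfold pT; push_cast; exact div_mul_cancel₀ _ hD'
  · unfold pS; push_cast; exact div_mul_cancel₀ _ hD'

theorem dD_self (e : Seg) : dD e e = 0 := by unfold dD; ring

/-- separated bounding boxes -/
def sep (e f : Seg) : Bool :=
  Nat.blt (max e.1.1 e.2.1) (min f.1.1 f.2.1) || Nat.blt (max f.1.1 f.2.1) (min e.1.1 e.2.1) ||
  Nat.blt (max e.1.2 e.2.2) (min f.1.2 f.2.2) || Nat.blt (max f.1.2 f.2.2) (min e.1.2 e.2.2)

theorem conv_le {a b c : ℕ} {t : ℝ} (h0 : 0 ≤ t) (h1 : t ≤ 1) (ha : a ≤ c) (hb : b ≤ c) :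
    (1 - t) * (a : ℝ) + t * (b : ℝ) ≤ c := by
  have ha' : (a : ℝ) ≤ c := by exact_mod_cast ha
  have hb' : (b : ℝ) ≤ c := by exact_mod_cast hb
  nlinarith [mul_nonneg h0 (sub_nonneg.2 hb'), mul_nonneg (sub_nonneg.2 h1) (sub_nonneg.2 ha')]

theorem le_conv {a b c : ℕ} {t : ℝ} (h0 : 0 ≤ t) (h1 : t ≤ 1) (ha : c ≤ a) (hb : c ≤ b) :
    (c : ℝ) ≤ (1 - t) * (a : ℝ) + t * (b : ℝ) := by
  have ha' : (c : ℝ) ≤ a := by exact_mod_cast ha
  have hb' : (c : ℝ) ≤ b := by exact_mod_cast hb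
  nlinarith [mul_nonneg h0 (sub_nonneg.2 hb'), mul_nonneg (sub_nonneg.2 h1) (sub_nonneg.2 ha')]

theorem conv_ne {a b c d : ℕ} {t s : ℝ} (h0 : 0 ≤ t) (h1 : t ≤ 1) (h2 : 0 ≤ s) (h3 : s ≤ 1)
    (h : max a b < min c d) : (1 - t) * (a : ℝ) + t * (b : ℝ) ≠ (1 - s) * (c : ℝ) + s * (d : ℝ) := by
  have e1 := conv_le h0 h1 (le_max_left a b) (le_max_right a b)
  have e2 := le_conv h2 h3 (min_le_left c d) (min_le_right c d)
  have e3 : ((max a b : ℕ) : ℝ) < ((min c d : ℕ) : ℝ) := by exact_mod_cast h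
  exact ne_of_lt (by linarith)

theorem not_meet_of_sep {e f : Seg} {t s : ℝ} (h : sep e f = true) : ¬ Meet e f t s := by
  rintro ⟨h0, h1, h2, h3, h4⟩
  have e1 := congrArg Prod.fst h4
  have e2 := congrArg Prod.snd h4
  simp only [pt] at e1 e2
  simp only [sep, Bool.or_eq_true, Nat.blt_eq] at h
  rcases h with ((h | h) | h) | h
  · exact conv_ne h0 h1 h2 h3 h e1
  · exact conv_ne h2 h3 h0 h1 h e1.symm
  · exact conv_ne h0 h1 h2 h3 h e2
  · exact conv_ne h2 h3 h0 h1 h e2.symm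

/-- no common point -/
def noM (e f : Seg) : Bool :=
  sep e f || (decide (dD e f = 0) && decide (dS e f ≠ 0)) ||
    (decide (dD e f ≠ 0) &&
      (decide (pT e f < 0) || decide (1 < pT e f) || decide (pS e f < 0) || decide (1 < pS e f)))

/-- a common endpoint -/
def vM (e f : Seg) : Bool :=
  decide (dD e f ≠ 0) && (decide (pT e f = 0) || decide (pT e f = 1)) &&
    (decide (pS e f = 0) || decide (pS e f = 1))

/-- a crossing -/
def xM (e f : Seg) : Bool :=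
  decide (dD e f ≠ 0) && decide (0 < pT e f) && decide (pT e f < 1) && decide (0 < pS e f) &&
    decide (pS e f < 1)

theorem not_meet_of_noM {e f : Seg} {t s : ℝ} (h : noM e f = true) : ¬ Meet e f t s := by
  intro hm
  simp only [noM, Bool.or_eq_true, Bool.and_eq_true, decide_eq_true_eq] at h
  rcases h with (h | ⟨h1, h2⟩) | ⟨h1, h2⟩
  · exact not_meet_of_sep h hm
  · have := (det_eq hm.2.2.2.2).2
    rw [h1] at this
    apply h2
    have h3 : (dS e f : ℝ) = 0 := by rw [← this]; simp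
    exact_mod_cast h3
  · obtain ⟨h0, h1', h2', h3, h4⟩ := hm
    obtain ⟨rfl, rfl⟩ := par_eq h1 h4
    have a0 : (0 : ℚ) ≤ pT e f := by exact_mod_cast h0
    have a1 : pT e f ≤ 1 := by exact_mod_cast h1'
    have a2 : (0 : ℚ) ≤ pS e f := by exact_mod_cast h2'
    have a3 : pS e f ≤ 1 := by exact_mod_cast h3
    rcases h2 with ((h | h) | h) | h <;> linarith

theorem meet_of_vM {e f : Seg} {t s : ℝ} (h : vM e f = true) (hm : Meet e f t s) :
    t = (pT e f : ℝ) ∧ (t = 0 ∨ t = 1) ∧ (s = 0 ∨ s = 1) := by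
  simp only [vM, Bool.or_eq_true, Bool.and_eq_true, decide_eq_true_eq] at h
  obtain ⟨⟨h1, h2⟩, h3⟩ := h
  obtain ⟨rfl, rfl⟩ := par_eq h1 hm.2.2.2.2
  refine ⟨rfl, ?_, ?_⟩
  · rcases h2 with h | h <;> rw [h] <;> simp
  · rcases h3 with h | h <;> rw [h] <;> simp

theorem xM_spec {e f : Seg} (h : xM e f = true) :
    dD e f ≠ 0 ∧ (0 : ℝ) < pT e f ∧ (pT e f : ℝ) < 1 ∧ (0 : ℝ) < pS e f ∧ (pS e f : ℝ) < 1 := by
  simp only [xM, Bool.and_eq_true, decide_eq_true_eq] at h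
  obtain ⟨⟨⟨⟨h1, h2⟩, h3⟩, h4⟩, h5⟩ := h
  exact ⟨h1, by exact_mod_cast h2, by exact_mod_cast h3, by exact_mod_cast h4,
    by exact_mod_cast h5⟩

theorem meet_of_xM {e f : Seg} {t s : ℝ} (h : xM e f = true) (hm : Meet e f t s) :
    t = (pT e f : ℝ) ∧ 0 < t ∧ t < 1 ∧ 0 < s ∧ s < 1 := by
  obtain ⟨h1, h2⟩ := xM_spec h
  obtain ⟨rfl, rfl⟩ := par_eq h1 hm.2.2.2.2
  exact ⟨rfl, h2⟩

/-- translation -/
def tr (a b : ℕ) (e : Seg) : Seg := ((e.1.1 + a, e.1.2 + b), (e.2.1 + a, e.2.2 + b))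

theorem pt_tr (a b : ℕ) (e : Seg) (t : ℝ) :
    pt (tr a b e) t = ((pt e t).1 + a, (pt e t).2 + b) := by
  simp only [pt, tr]
  push_cast
  refine Prod.ext ?_ ?_ <;> simp only <;> ring

theorem Cross.meet {e f : Seg} {t : ℝ} (h : Cross e f t) :
    ∃ s, 0 < s ∧ s < 1 ∧ Meet e f t s := by
  obtain ⟨-, h1, h2, s, h3, h4, h5⟩ := h
  exact ⟨s, h3, h4, h1.le, h2.le, h3.le, h4.le, h5⟩

/-- No three crossings along `e` alternate in type. -/
def NoAlt (E : List Seg) (h : Seg → ℕ) (e : Seg) : Prop :=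
  ∀ a ∈ E, ∀ b ∈ E, ∀ c ∈ E, ∀ t u v : ℝ, Cross e a t → Cross e b u → Cross e c v → t < u →
    u < v → (h a < h e ↔ h b < h e) ∨ (h b < h e ↔ h c < h e)

theorem finite_cross (D : Drawing) {e : Seg} (he : e ∈ D.E) :
    {t : ℝ | ∃ g ∈ D.E, Cross e g t}.Finite := by
  have : {t : ℝ | ∃ g ∈ D.E, Cross e g t} = ⋃ g ∈ {g | g ∈ D.E}, {t | Cross e g t} := by
    ext t; simp
  rw [this]
  refine (List.finite_toSet D.E).biUnion fun g hg => Set.Subsingleton.finite ?_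
  intro t ht t' ht'
  obtain ⟨s, -, -, hs⟩ := Cross.meet ht
  obtain ⟨s', -, -, hs'⟩ := Cross.meet ht'
  exact D.meetOnce e he g hg ht.1 t s t' s' hs hs'

theorem exists_switch (D : Drawing) (h : Seg → ℕ) {e : Seg} (he : e ∈ D.E) (n : ℕ) :
    ∀ t u : ℝ, ({v : ℝ | ∃ g ∈ D.E, Cross e g v} ∩ Set.Ioo t u).ncard ≤ n → t < u →
      ∀ a ∈ D.E, ∀ b ∈ D.E, Cross e a t → Cross e b u → ¬ (h a < h e ↔ h b < h e) →
      ∃ x y, t ≤ x ∧ y ≤ u ∧ Switch D.E h e x y := by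
  have hf := finite_cross D he
  induction n with
  | zero =>
    intro t u hn htu a ha b hb h1 h2 h3
    refine ⟨t, u, le_rfl, le_rfl, htu, fun g hg v hv => ?_, a, ha, b, hb, h1, h2, h3⟩
    by_contra hc
    push Not at hc
    have := (Set.ncard_eq_zero (hf.inter_of_left _)).1 (Nat.le_zero.1 hn)
    exact (this ▸ (⟨⟨g, hg, hv⟩, hc.1, hc.2⟩ :
      v ∈ {v : ℝ | ∃ g ∈ D.E, Cross e g v} ∩ Set.Ioo t u) : v ∈ (∅ : Set ℝ))
  | succ n ih =>
    intro t u hn htu a ha b hb h1 h2 h3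
    by_cases hc : ∀ g ∈ D.E, ∀ v : ℝ, Cross e g v → v ≤ t ∨ u ≤ v
    · exact ⟨t, u, le_rfl, le_rfl, htu, hc, a, ha, b, hb, h1, h2, h3⟩
    push Not at hc
    obtain ⟨g, hg, v, hv, h4, h5⟩ := hc
    have hlt : ∀ x y : ℝ, t ≤ x → y ≤ u → v ∉ Set.Ioo x y →
        ({v : ℝ | ∃ g ∈ D.E, Cross e g v} ∩ Set.Ioo x y).ncard ≤ n := by
      intro x y hx hy hv'
      refine Nat.le_of_lt_succ (lt_of_lt_of_le (Set.ncard_lt_ncard ⟨?_, fun hs => ?_⟩
        (hf.inter_of_left _)) hn)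
      · exact Set.inter_subset_inter_right _ (Set.Ioo_subset_Ioo hx hy)
      · exact hv' (hs ⟨⟨g, hg, hv⟩, h4, h5⟩).2
    by_cases h6 : h a < h e ↔ h g < h e
    · obtain ⟨x, y, h7, h8, h9⟩ := ih v u (hlt v u h4.le le_rfl (by simp)) h5 g hg b hb hv h2
        (fun h' => h3 (h6.trans h'))
      exact ⟨x, y, h4.le.trans h7, h8, h9⟩
    · obtain ⟨x, y, h7, h8, h9⟩ := ih t v (hlt t v le_rfl h5.le (by simp)) h4 a ha g hg h1 hv h6
      exact ⟨x, y, h7, h8.trans h5.le, h9⟩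

theorem switches_le_one_iff (D : Drawing) (h : Seg → ℕ) {e : Seg} (he : e ∈ D.E) :
    switches D.E h e ≤ ((1 : ℕ) : ℕ∞) ↔ NoAlt D.E h e := by
  unfold switches
  rw [Nat.cast_one, Set.encard_le_one_iff]
  constructor
  · intro hs a ha b hb c hc t u v h1 h2 h3 h4 h5
    by_contra hn
    rw [not_or] at hn
    obtain ⟨x, y, h6, h7, h8⟩ := exists_switch D h he _ t u le_rfl h4 a ha b hb h1 h2 hn.1
    obtain ⟨x', y', h6', h7', h8'⟩ := exists_switch D h he _ u v le_rfl h5 b hb c hc h2 h3 hn.2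
    have := congrArg Prod.fst (hs (x, y) (x', y') h8 h8')
    have h9 := h8.1
    simp only at this
    linarith
  · intro hn
    have key : ∀ x y x' y' : ℝ, Switch D.E h e x y → Switch D.E h e x' y' → ¬ x < x' := by
      rintro x y x' y' ⟨h1, h2, a, ha, b, hb, h3, h4, h5⟩ ⟨h1', -, c, hc, d, hd, h3', h4', h5'⟩ hx
      have h6 : y ≤ x' := (h2 c hc x' h3').resolve_left (not_le.2 hx)
      rcases h6.eq_or_lt with h7 | h7
      · subst h7
        have := D.noTriple e he b hb c hc y h4 h3'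
        subst this
        rcases hn a ha b hb d hd x y y' h3 h4 h4' h1 h1' with h8 | h8
        · exact h5 h8
        · exact h5' h8
      · rcases hn a ha b hb d hd x y y' h3 h4 h4' h1 (h7.trans h1') with h8 | h8
        · exact h5 h8
        · rcases hn a ha b hb c hc x y x' h3 h4 h3' h1 h7 with h9 | h9
          · exact h5 h9
          · exact h5' (h9.symm.trans h8)
    rintro ⟨x, y⟩ ⟨x', y'⟩ h1 h2
    have hx : x = x' := le_antisymm (not_lt.1 (key _ _ _ _ h2 h1)) (not_lt.1 (key _ _ _ _ h1 h2))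
    subst hx
    obtain ⟨h3, h4, a, ha, b, hb, -, h5, -⟩ := h1
    obtain ⟨h3', h4', c, hc, d, hd, -, h5', -⟩ := h2
    have e1 : y ≤ y' := (h4 d hd y' h5').resolve_left (not_le.2 h3')
    have e2 : y' ≤ y := (h4' b hb y h5).resolve_left (not_le.2 h3)
    rw [le_antisymm e1 e2]

end Pool.Agent.Lib.MP_b4992a_lc.St
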