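import Pool.Agent.Lib.MP_b4992a_lc.St.Table

/-! The grid of tiles is a drawing in general position of a connected graph. -/

set_option autoImplicit false

namespace Pool.Agent.Lib.MP_b4992a_lc.St

theorem pt_shift {i j i' j' a b a' b' : ℕ} (k k' : ℕ) (h1 : i' + a = i + a') (h2 : j' + b = j + b')
    (t s : ℝ) :
    pt (seg i j k) t = pt (seg i' j' k') s ↔ pt (seg a b k) t = pt (seg a' b' k') s := by
  have e1 : (i' : ℝ) + a = i + a' := by exact_mod_cast h1
  have e2 : (j' : ℝ) + b = j + b' := by exact_mod_cast h2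
  simp only [seg, pt_tr, Prod.mk.injEq]
  push_cast
  constructor <;> rintro ⟨h3, h4⟩ <;> constructor <;> linarith

theorem pt_tab_bd {k : ℕ} (hk : k < 26) {t : ℝ} (h0 : 0 ≤ t) (h1 : t ≤ 1) :
    0 ≤ (pt (tab k) t).1 ∧ (pt (tab k) t).1 ≤ 799 ∧ 0 ≤ (pt (tab k) t).2 ∧
      (pt (tab k) t).2 ≤ 479 := by
  obtain ⟨-, a1, a2, a3, a4⟩ := chk3 k hk
  refine ⟨?_, ?_, ?_, ?_⟩
  · simpa [pt] using le_conv (c := 0) h0 h1 (Nat.zero_le (tab k).1.1) (Nat.zero_le (tab k).2.1)
  · simpa [pt] using conv_le (c := 799) h0 h1 (Nat.le_of_lt_succ a1) (Nat.le_of_lt_succ a2)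
  · simpa [pt] using le_conv (c := 0) h0 h1 (Nat.zero_le (tab k).1.2) (Nat.zero_le (tab k).2.2)
  · simpa [pt] using conv_le (c := 479) h0 h1 (Nat.le_of_lt_succ a3) (Nat.le_of_lt_succ a4)

theorem near {i j k i' j' k' : ℕ} {t s : ℝ} (hk : k < 26) (hk' : k' < 26)
    (hm : Meet (seg i j k) (seg i' j' k') t s) :
    i < i' + 2 ∧ i' < i + 2 ∧ j < j' + 2 ∧ j' < j + 2 := by
  obtain ⟨h0, h1, h2, h3, h4⟩ := hm
  obtain ⟨a1, a2, a3, a4⟩ := pt_tab_bd hk h0 h1
  obtain ⟨b1, b2, b3, b4⟩ := pt_tab_bd hk' h2 h3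
  simp only [seg, pt_tr, Prod.mk.injEq] at h4
  push_cast at h4
  obtain ⟨h5, h6⟩ := h4
  have c1 : (i : ℝ) < i' + 2 := by linarith
  have c2 : (i' : ℝ) < i + 2 := by linarith
  have c3 : (j : ℝ) < j' + 2 := by linarith
  have c4 : (j' : ℝ) < j + 2 := by linarith
  exact ⟨by exact_mod_cast c1, by exact_mod_cast c2, by exact_mod_cast c3, by exact_mod_cast c4⟩

theorem meet_cases {i j k i' j' k' : ℕ} {t s : ℝ} (hk : k < 26) (hk' : k' < 26)
    (hne : (i, j, k) ≠ (i', j', k')) (hm : Meet (seg i j k) (seg i' j' k') t s) :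
    ∃ dx dy, i' + 1 = i + dy ∧ j' + 1 = j + dx ∧
      t = (pT (nb (k, 1, 1)) (nb (k', dx, dy)) : ℝ) ∧
      (((t = 0 ∨ t = 1) ∧ (s = 0 ∨ s = 1)) ∨
        (0 < t ∧ t < 1 ∧ 0 < s ∧ s < 1 ∧ ∃ r, ((k', dx, dy), r) ∈ X k)) := by
  obtain ⟨c1, c2, c3, c4⟩ := near hk hk' hm
  obtain ⟨dy, hy⟩ : ∃ dy, i' + 1 = i + dy := ⟨i' + 1 - i, by omega⟩
  obtain ⟨dx, hx⟩ : ∃ dx, j' + 1 = j + dx := ⟨j' + 1 - j, by omega⟩
  refine ⟨dx, dy, hy, hx, ?_⟩
  have hm' : Meet (nb (k, 1, 1)) (nb (k', dx, dy)) t s :=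
    ⟨hm.1, hm.2.1, hm.2.2.1, hm.2.2.2.1, (pt_shift k k' hy hx t s).1 hm.2.2.2.2⟩
  have h := ok1_true hk hk' (show dx < 3 by omega) (show dy < 3 by omega)
  simp only [ok1, Bool.or_eq_true, Bool.and_eq_true, decide_eq_true_eq, List.any_eq_true] at h
  rcases h with ((h | h) | h) | ⟨h, b, hb, h'⟩
  · simp only [Prod.mk.injEq] at h
    obtain ⟨rfl, rfl, rfl⟩ := h
    obtain rfl : i = i' := by omega
    obtain rfl : j = j' := by omega
    exact absurd rfl hne
  · exact absurd hm' (not_meet_of_noM h)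
  · obtain ⟨h1, h2⟩ := meet_of_vM h hm'
    exact ⟨h1, Or.inl h2⟩
  · obtain ⟨h1, h2, h3, h4, h5⟩ := meet_of_xM h hm'
    exact ⟨h1, Or.inr ⟨h2, h3, h4, h5, b.2, by rw [← h']; exact hb⟩⟩

theorem meet_once {i j k i' j' k' : ℕ} {t s t' s' : ℝ} (hk : k < 26) (hk' : k' < 26)
    (hne : (i, j, k) ≠ (i', j', k')) (hm : Meet (seg i j k) (seg i' j' k') t s)
    (hm' : Meet (seg i j k) (seg i' j' k') t' s') : t = t' := by
  obtain ⟨dx, dy, h1, h2, h3, -⟩ := meet_cases hk hk' hne hm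
  obtain ⟨dx', dy', h1', h2', h3', -⟩ := meet_cases hk hk' hne hm'
  obtain rfl : dx = dx' := by omega
  obtain rfl : dy = dy' := by omega
  rw [h3, h3']

theorem seg_inj {i j k i' j' k' : ℕ} (hk : k < 26) (hk' : k' < 26)
    (h : seg i j k = seg i' j' k') : (i, j, k) = (i', j', k') := by
  by_contra hne
  have h1 : Meet (seg i j k) (seg i' j' k') 0 0 := ⟨le_rfl, zero_le_one, le_rfl, zero_le_one,
    by rw [h]⟩
  have h2 : Meet (seg i j k) (seg i' j' k') 1 1 := ⟨zero_le_one, le_rfl, zero_le_one, le_rfl,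
    by rw [h]⟩
  exact zero_ne_one (meet_once hk hk' hne h1 h2)

theorem cross_cases {i j k i' j' k' : ℕ} {t : ℝ} (hk : k < 26) (hk' : k' < 26)
    (hc : Cross (seg i j k) (seg i' j' k') t) :
    ∃ dx dy r, i' + 1 = i + dy ∧ j' + 1 = j + dx ∧
      t = (pT (nb (k, 1, 1)) (nb (k', dx, dy)) : ℝ) ∧ ((k', dx, dy), r) ∈ X k := by
  obtain ⟨s, h1, h2, hm⟩ := hc.meet
  have hne : (i, j, k) ≠ (i', j', k') := by
    intro h
    simp only [Prod.mk.injEq] at h
    obtain ⟨rfl, rfl, rfl⟩ := h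
    exact hc.1 rfl
  obtain ⟨dx, dy, h3, h4, h5, h6⟩ := meet_cases hk hk' hne hm
  rcases h6 with ⟨-, h6 | h6⟩ | ⟨-, -, -, -, r, hr⟩
  · exact absurd h6 h1.ne'
  · exact absurd h6 h2.ne
  · exact ⟨dx, dy, r, h3, h4, h5, hr⟩

theorem cross_of_xM (i j : ℕ) {e a : ℕ × ℕ × ℕ} (h : xM (nb e) (nb a) = true) :
    Cross (seg (i + e.2.2) (j + e.2.1) e.1) (seg (i + a.2.2) (j + a.2.1) a.1)
      (pT (nb e) (nb a) : ℝ) := by
  obtain ⟨h1, h2, h3, h4, h5⟩ := xM_spec h
  have key : ∀ t s : ℝ, pt (seg (i + e.2.2) (j + e.2.1) e.1) t =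
      pt (seg (i + a.2.2) (j + a.2.1) a.1) s ↔ pt (nb e) t = pt (nb a) s :=
    pt_shift e.1 a.1 (by omega) (by omega)
  refine ⟨fun he => ?_, h2, h3, _, h4, h5, (key _ _).2 (pt_par h1)⟩
  have e0 := (par_eq h1 ((key 0 0).1 (by rw [he]))).1
  linarith

/-- the index triples -/
def trip (N M : ℕ) : List (ℕ × ℕ × ℕ) :=
  (List.range N).flatMap fun i =>
    ((List.range M).flatMap fun j => (List.range 26).map fun k => (j, k)).map fun q => (i, q)

/-- the edges of the grid -/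
def gridE (N M : ℕ) (P : ℕ → ℕ → ℕ → Bool) : List Seg :=
  ((trip N M).filter fun a => P a.1 a.2.1 a.2.2).map fun a => seg a.1 a.2.1 a.2.2

theorem trip_eq (N M : ℕ) : trip N M = List.range N ×ˢ (List.range M ×ˢ List.range 26) := rfl

theorem mem_trip {N M i j k : ℕ} : (i, j, k) ∈ trip N M ↔ i < N ∧ j < M ∧ k < 26 := by
  rw [trip_eq, List.mem_product, List.mem_product]
  simp

theorem mem_gridE {N M : ℕ} {P : ℕ → ℕ → ℕ → Bool} {e : Seg} :
    e ∈ gridE N M P ↔ ∃ i j k, i < N ∧ j < M ∧ k < 26 ∧ P i j k = true ∧ seg i j k = e := by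
  unfold gridE
  simp only [List.mem_map, List.mem_filter]
  constructor
  · rintro ⟨⟨i, j, k⟩, ⟨h1, h2⟩, h3⟩
    obtain ⟨h4, h5, h6⟩ := mem_trip.1 h1
    exact ⟨i, j, k, h4, h5, h6, h2, h3⟩
  · rintro ⟨i, j, k, h1, h2, h3, h4, h5⟩
    exact ⟨(i, j, k), ⟨mem_trip.2 ⟨h1, h2, h3⟩, h4⟩, h5⟩

theorem nodup_gridE (N M : ℕ) (P : ℕ → ℕ → ℕ → Bool) : (gridE N M P).Nodup := by
  refine List.Nodup.map_on ?_ (List.Nodup.filter _ ?_)
  · rintro ⟨i, j, k⟩ h ⟨i', j', k'⟩ h' he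
    exact seg_inj (mem_trip.1 (List.mem_filter.1 h).1).2.2
      (mem_trip.1 (List.mem_filter.1 h').1).2.2 he
  · rw [trip_eq]
    exact List.nodup_range.product (List.nodup_range.product List.nodup_range)

theorem seg_noLoop (i j : ℕ) {k : ℕ} (hk : k < 26) : (seg i j k).1 ≠ (seg i j k).2 := by
  intro h
  apply (chk3 k hk).1
  simp only [seg, tr, Prod.mk.injEq] at h
  exact Prod.ext (by omega) (by omega)

theorem pt_inj {e : Seg} (he : e.1 ≠ e.2) {t s : ℝ} (h : pt e t = pt e s) : t = s := by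
  by_contra hne
  apply he
  have h1 := congrArg Prod.fst h
  have h2 := congrArg Prod.snd h
  simp only [pt] at h1 h2
  have h3 : t - s ≠ 0 := sub_ne_zero.2 hne
  have e1 : (e.1.1 : ℝ) = e.2.1 := mul_left_cancel₀ h3 (by linarith)
  have e2 : (e.1.2 : ℝ) = e.2.2 := mul_left_cancel₀ h3 (by linarith)
  exact Prod.ext (by exact_mod_cast e1) (by exact_mod_cast e2)

/-- a point of the tile in row `i` and column `j` -/
def tp (i j : ℕ) (p : Pt) : Pt := (p.1 + j * 400, p.2 + i * 240)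

theorem reach_edge {E : List Seg} {e : Seg} (he : e ∈ E) : (graph E).Reachable e.1 e.2 := by
  by_cases h : e.1 = e.2
  · rw [h]
  · exact SimpleGraph.Adj.reachable ((SimpleGraph.fromRel_adj _ _ _).2 ⟨h, Or.inl he⟩)

section conn

variable {N M : ℕ} {P : ℕ → ℕ → ℕ → Bool} (hP : ∀ i j k, k < 21 → P i j k = true)
  (hP' : ∀ i j k, P i j k = true → 21 ≤ k → j + 1 < M)

include hP in
theorem tile_conn {i j : ℕ} (hi : i < N) (hj : j < M) :
    ∀ p ∈ KN, (graph (gridE N M P)).Reachable (tp i j (240, 0)) (tp i j p) := by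
  refine KN_spec (fun p => (graph (gridE N M P)).Reachable (tp i j (240, 0)) (tp i j p))
    (fun k hk => ?_) (SimpleGraph.Reachable.refl _)
  have h : (graph (gridE N M P)).Reachable (tp i j (tab k).1) (tp i j (tab k).2) :=
    reach_edge (e := seg i j k) (mem_gridE.2 ⟨i, j, k, hi, hj, by omega, hP i j k hk, rfl⟩)
  exact ⟨fun h' => h'.trans h, fun h' => h'.trans h.symm⟩

include hP in
theorem base_conn : ∀ i j, i < N → j < M →
    (graph (gridE N M P)).Reachable (tp 0 0 (240, 0)) (tp i j (240, 0)) := by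
  obtain ⟨-, k1, k2, k3⟩ := chk7
  intro i
  induction i with
  | zero =>
    intro j hi
    induction j with
    | zero => intro _; exact SimpleGraph.Reachable.refl _
    | succ j ih =>
      intro hj
      have h1 := tile_conn hP hi (show j < M by omega) _ k2
      have h2 := tile_conn hP hi hj _ k3
      have e : tp 0 j (640, 120) = tp 0 (j + 1) (240, 120) := by
        refine Prod.ext ?_ ?_ <;> (dsimp only [tp]; try omega)
      rw [e] at h1
      exact ((ih (by omega)).trans h1).trans h2.symm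
  | succ i ih =>
    intro j hi hj
    have h1 := tile_conn hP (show i < N by omega) hj _ k1
    have e : tp i j (240, 240) = tp (i + 1) j (240, 0) := by
      refine Prod.ext ?_ ?_ <;> (dsimp only [tp]; try omega)
    rw [e] at h1
    exact (ih j (by omega) hj).trans h1

include hP hP' in
theorem vertex_conn {p : Pt} (hp : IsVertex (gridE N M P) p) :
    (graph (gridE N M P)).Reachable (tp 0 0 (240, 0)) p := by
  obtain ⟨e, he, hp⟩ := hp
  have h1 : (graph (gridE N M P)).Reachable (tp 0 0 (240, 0)) e.1 := by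
    obtain ⟨i, j, k, hi, hj, hk, hpr, rfl⟩ := mem_gridE.1 he
    rcases chk7.1 k hk with h | ⟨h1, h2, h3⟩
    · exact (base_conn hP i j hi hj).trans (tile_conn hP hi hj _ h)
    · have hj' := hP' i j k hpr h1
      have h4 := (base_conn hP i (j + 1) hi hj').trans (tile_conn hP hi hj' _ h3)
      have e : tp i (j + 1) ((tab k).1.1 - 400, (tab k).1.2) = (seg i j k).1 := by
        refine Prod.ext ?_ ?_ <;> (dsimp only [tp, seg, tr]; try omega)
      rwa [e] at h4
  rcases hp with rfl | rfl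
  · exact h1
  · exact h1.trans (reach_edge he)

end conn

/-- the grid as a drawing -/
def gridD (N M : ℕ) (P : ℕ → ℕ → ℕ → Bool) (hP : ∀ i j k, k < 21 → P i j k = true)
    (hP' : ∀ i j k, P i j k = true → 21 ≤ k → j + 1 < M) : Drawing where
  E := gridE N M P
  nodup := nodup_gridE N M P
  noLoop := by
    intro e he
    obtain ⟨i, j, k, -, -, hk, -, rfl⟩ := mem_gridE.1 he
    exact seg_noLoop i j hk
  meetOnce := by
    intro e he f hf hne t s t' s' h1 h2
    obtain ⟨i, j, k, -, -, hk, -, rfl⟩ := mem_gridE.1 he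
    obtain ⟨i', j', k', -, -, hk', -, rfl⟩ := mem_gridE.1 hf
    refine meet_once hk hk' (fun h => hne ?_) h1 h2
    simp only [Prod.mk.injEq] at h
    obtain ⟨rfl, rfl, rfl⟩ := h
    rfl
  noVertex := by
    intro e he f hf t h0 h1
    obtain ⟨i, j, k, -, -, hk, -, rfl⟩ := mem_gridE.1 he
    obtain ⟨i', j', k', -, -, hk', -, rfl⟩ := mem_gridE.1 hf
    have key : ∀ s : ℝ, s = 0 ∨ s = 1 → pt (seg i j k) t ≠ pt (seg i' j' k') s := by
      intro s hs h
      by_cases hne : (i, j, k) = (i', j', k')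
      · simp only [Prod.mk.injEq] at hne
        obtain ⟨rfl, rfl, rfl⟩ := hne
        have := pt_inj (seg_noLoop i j hk) h
        rcases hs with hs | hs <;> linarith
      · have hm : Meet (seg i j k) (seg i' j' k') t s :=
          ⟨h0.le, h1.le, by rcases hs with hs | hs <;> linarith,
            by rcases hs with hs | hs <;> linarith, h⟩
        obtain ⟨dx, dy, -, -, -, h6⟩ := meet_cases hk hk' hne hm
        rcases h6 with ⟨h6 | h6, -⟩ | ⟨-, -, h7, h8, -⟩
        · linarith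
        · linarith
        · rcases hs with hs | hs <;> linarith
    exact ⟨key 0 (Or.inl rfl), key 1 (Or.inr rfl)⟩
  noTriple := by
    intro e he f hf g hg t h1 h2
    obtain ⟨i, j, k, -, -, hk, -, rfl⟩ := mem_gridE.1 he
    obtain ⟨i', j', k', -, -, hk', -, rfl⟩ := mem_gridE.1 hf
    obtain ⟨i'', j'', k'', -, -, hk'', -, rfl⟩ := mem_gridE.1 hg
    obtain ⟨dx, dy, r, a1, a2, a3, a4⟩ := cross_cases hk hk' h1
    obtain ⟨dx', dy', r', b1, b2, b3, b4⟩ := cross_cases hk hk'' h2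
    have h3 := (chk2 k hk _ a4 _ b4).2 (by exact_mod_cast a3.symm.trans b3)
    simp only [Prod.mk.injEq] at h3
    obtain ⟨⟨rfl, rfl, rfl⟩, -⟩ := h3
    obtain rfl : i' = i'' := by omega
    obtain rfl : j' = j'' := by omega
    rfl
  connected := fun _ _ hp hq => (vertex_conn hP hP' hp).symm.trans (vertex_conn hP hP' hq)

end Pool.Agent.Lib.MP_b4992a_lc.St
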