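import Pool.Agent.Lib.MP_b4992a_lc.St.Gadget
import Pool.Agent.Shared.NP.CookLevin

/-! The reduction from 3-SAT. -/

set_option autoImplicit false

namespace Pool.Agent.Lib.MP_b4992a_lc.St

open Pool.Agent.Shared.PolyTime Pool.Agent.Shared.NP

attribute [local irreducible] seg sH sR

/-- a bound for the variables -/
def nv (φ : CNF3) : ℕ := (φ.map fun c => c.1.2 + c.2.1.2 + c.2.2.2 + 1).sum

/-- the clause contains the literal -/
def inCl (c : Cl3) (b : Bool) (v : ℕ) : Bool :=
  (c.1.1 == b && c.1.2 == v) || (c.2.1.1 == b && c.2.1.2 == v) || (c.2.2.1 == b && c.2.2.2 == v)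

/-- the clause of column `j` contains the literal -/
def has (φ : CNF3) (j : ℕ) (b : Bool) (v : ℕ) : Bool :=
  Nat.blt 0 j && inCl (φ.getD (j - 1) ((false, 0), (false, 0), (false, 0))) b v

/-- which segments are present -/
def pres (φ : CNF3) (i j k : ℕ) : Bool :=
  Nat.blt k 21 || (Nat.ble j φ.length &&
    ((k == 21 && Nat.blt 0 i && Nat.ble i (nv φ) && !has φ j true (i - 1)) ||
     (k == 22 && Nat.blt 0 i && Nat.ble i (nv φ) && !has φ j false (i - 1)) ||
     (k == 23 && i == 0) || (k == 24 && i == nv φ + 1 && j == 0) ||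
     (k == 25 && i == nv φ + 1 && Nat.blt 0 j)))

theorem pres_always (φ : CNF3) (i j k : ℕ) (hk : k < 21) : pres φ i j k = true := by
  simp [pres, Nat.blt_eq, hk]

theorem pres_opt (φ : CNF3) (i j k : ℕ) (h : pres φ i j k = true) (hk : 21 ≤ k) :
    j + 1 < φ.length + 2 := by
  simp only [pres, Bool.or_eq_true, Bool.and_eq_true, Nat.blt_eq, Nat.ble_eq] at h
  omega

/-- the drawing of a formula -/
def red (φ : CNF3) : Drawing :=
  gridD (nv φ + 2) (φ.length + 2) (pres φ) (pres_always φ) (pres_opt φ)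

theorem red_pf : PF fun φ : CNF3 => gridE (nv φ + 2) (φ.length + 2) (pres φ) := by
  have h1 : PF nv := by unfold nv; fun_prop
  unfold gridE trip pres has inCl seg tr tab
  fun_prop

theorem var_lt {φ : CNF3} {c : Cl3} (hc : c ∈ φ) :
    c.1.2 < nv φ ∧ c.2.1.2 < nv φ ∧ c.2.2.2 < nv φ := by
  have : c.1.2 + c.2.1.2 + c.2.2.2 + 1 ≤ nv φ :=
    List.single_le_sum (by simp) _ (List.mem_map.2 ⟨c, hc, rfl⟩)
  omega

theorem inCl_iff {c : Cl3} {b : Bool} {v : ℕ} :
    inCl c b v = true ↔ c.1 = (b, v) ∨ c.2.1 = (b, v) ∨ c.2.2 = (b, v) := by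
  simp [inCl, Prod.ext_iff, or_assoc]

theorem has_succ {φ : CNF3} {j : ℕ} (hj : j < φ.length) (b : Bool) (v : ℕ) :
    has φ (j + 1) b v = inCl φ[j] b v := by
  unfold has
  rw [Nat.add_sub_cancel, List.getD_eq_getElem _ _ hj]
  simp [Nat.blt_eq]

theorem has_zero (φ : CNF3) (b : Bool) (v : ℕ) : has φ 0 b v = false := by
  simp [has, Nat.blt]

theorem sound {φ : CNF3} {h : Seg → ℕ} (G : Good (nv φ + 2) (φ.length + 2) (pres φ) h) :
    Sat3 φ := by
  classical
  let asg : ℕ → Bool := fun v => decide ¬ (sR h (v + 1) 0 ↔ (sR h 0 0 ↔ Even v))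
  have key : ∀ j, j ≤ φ.length → ∀ v, v ≤ nv φ →
      (sH h (v + 1) j ↔ (sR h 0 0 ↔ Even v)) ∨ ∃ w, has φ j (asg w) w = true := by
    intro j hj v
    induction v with
    | zero =>
      intro _
      left
      rw [G.gU (i := 0) (j := j) (by omega) (by omega) (by simp [pres, hj])]
      simp
    | succ v ih =>
      intro hv
      rcases ih (by omega) with h1 | h1
      swap
      · exact Or.inr h1
      by_cases h2 : has φ j (asg v) v = true
      · exact Or.inr ⟨v, h2⟩
      left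
      rw [Nat.even_add_one]
      by_cases h3 : sR h (v + 1) 0 ↔ (sR h 0 0 ↔ Even v)
      · have h4 : asg v = false := by simp only [asg, h3]; simp
        rw [h4] at h2
        have := G.gC (i := v + 1) (j := j) (by omega) (by omega) (by simp [pres, hj, hv, h2])
        tauto
      · have h4 : asg v = true := by simp only [asg]; exact decide_eq_true h3
        rw [h4] at h2
        have := G.gB (i := v + 1) (j := j) (by omega) (by omega) (by simp [pres, hj, hv, h2])
        tauto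
  refine ⟨asg, fun c hc => ?_⟩
  obtain ⟨j, hj, rfl⟩ := List.getElem_of_mem hc
  have h0 : sH h (nv φ + 1) 0 ↔ (sR h 0 0 ↔ Even (nv φ)) := by
    rcases key 0 (by omega) _ le_rfl with h1 | ⟨w, h1⟩
    · exact h1
    · rw [has_zero] at h1
      exact absurd h1 (by simp)
  have h1 := G.gD (i := nv φ + 1) (j := 0) (by omega) (by omega) (by simp [pres])
  have h2 := G.gE (i := nv φ + 1) (j := j + 1) (by omega) (by omega)
    (by simp [pres, Nat.succ_le_of_lt hj])
  rcases key (j + 1) hj _ le_rfl with h3 | ⟨w, h3⟩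
  · tauto
  · rw [has_succ hj, inCl_iff] at h3
    rcases h3 with h3 | h3 | h3
    · exact Or.inl (by rw [h3])
    · exact Or.inr (Or.inl (by rw [h3]))
    · exact Or.inr (Or.inr (by rw [h3]))

theorem complete {φ : CNF3} (hφ : Sat3 φ) :
    ∃ h : Seg → ℕ, Set.InjOn h {e | e ∈ gridE (nv φ + 2) (φ.length + 2) (pres φ)} ∧
      ∀ e ∈ gridE (nv φ + 2) (φ.length + 2) (pres φ),
        NoAlt (gridE (nv φ + 2) (φ.length + 2) (pres φ)) h e := by
  obtain ⟨asg, hs⟩ := hφ
  let sat : ℕ → ℕ → Bool := fun j v => (List.range v).any fun w => has φ j (asg w) w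
  have sat0 : ∀ j, sat j 0 = false := fun j => rfl
  have satS : ∀ j v, sat j (v + 1) = (sat j v || has φ j (asg v) v) := fun j v => by
    simp only [sat, List.range_succ, List.any_append, List.any_cons, List.any_nil, Bool.or_false]
  have satZ : ∀ v, sat 0 v = false := fun v => by simp [sat, has_zero]
  have satN : ∀ j, j < φ.length → sat (j + 1) (nv φ) = true := fun j hj => by
    obtain ⟨h1, h2, h3⟩ := var_lt (List.getElem_mem hj)
    simp only [sat, List.any_eq_true, List.mem_range, has_succ hj, inCl_iff]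
    rcases hs _ (List.getElem_mem hj) with h | h | h
    · exact ⟨_, h1, Or.inl (by rw [h])⟩
    · exact ⟨_, h2, Or.inr (Or.inl (by rw [h]))⟩
    · exact ⟨_, h3, Or.inr (Or.inr (by rw [h]))⟩
  refine exists_good (fun i j => xor (i - 1).bodd (sat j (i - 1)))
    (fun i => if i = 0 then false else if i ≤ nv φ then xor (i - 1).bodd (asg (i - 1))
      else (nv φ).bodd) fun i j k hp => ?_
  simp only [pres, Bool.or_eq_true, Bool.and_eq_true, Nat.blt_eq, Nat.ble_eq, beq_iff_eq,
    Bool.not_eq_true'] at hp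
  rcases hp with hp | ⟨hj, (((⟨⟨⟨rfl, h1⟩, h2⟩, h3⟩ | ⟨⟨⟨rfl, h1⟩, h2⟩, h3⟩) | ⟨rfl, rfl⟩) |
    ⟨⟨rfl, rfl⟩, rfl⟩) | ⟨⟨rfl, rfl⟩, h1⟩⟩
  · unfold cnd
    rw [if_neg (by omega), if_neg (by omega), if_neg (by omega), if_neg (by omega),
      if_neg (by omega)]
  · obtain ⟨v, rfl⟩ : ∃ v, i = v + 1 := ⟨i - 1, by omega⟩
    simp only [Nat.add_sub_cancel] at h3 ⊢
    rw [if_neg (by omega), if_pos h2, satS, Nat.bodd_succ]
    cases ha : asg v
    · cases v.bodd <;> cases sat j v <;> cases has φ j false v <;> rfl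
    · rw [h3]
      cases v.bodd <;> cases sat j v <;> rfl
  · obtain ⟨v, rfl⟩ : ∃ v, i = v + 1 := ⟨i - 1, by omega⟩
    simp only [Nat.add_sub_cancel] at h3 ⊢
    rw [if_neg (by omega), if_pos h2, satS, Nat.bodd_succ]
    cases ha : asg v
    · rw [h3]
      cases v.bodd <;> cases sat j v <;> rfl
    · cases v.bodd <;> cases sat j v <;> cases has φ j true v <;> rfl
  · simp [cnd, sat0]
  · simp [cnd, satZ]
  · obtain ⟨j, rfl⟩ : ∃ j', j = j' + 1 := ⟨j - 1, by omega⟩
    simp [cnd, satN j hj]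

theorem red_iff (φ : CNF3) : Sat3 φ ↔ Yes 1 (red φ) := by
  constructor
  · intro hφ
    obtain ⟨h, h1, h2⟩ := complete hφ
    exact ⟨h, h1, fun e he => (switches_le_one_iff (red φ) h he).2 (h2 e he)⟩
  · rintro ⟨h, h1, h2⟩
    exact sound ⟨pres_always φ, h1, fun e he => (switches_le_one_iff (red φ) h he).1 (h2 e he)⟩

theorem hard : NPHard encDrawing (Yes 1) :=
  npHard_of_sat3 encDrawing (Yes 1) red _ red_pf (fun _ => rfl) red_iff

end Pool.Agent.Lib.MP_b4992a_lc.St
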