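import Pool.Agent.Lib.MP_b4992a_lc.St.Geo

/-! The tile of the reduction and the finite checks on it. -/

set_option autoImplicit false

namespace Pool.Agent.Lib.MP_b4992a_lc.St

/-- The 26 segments of a tile. -/
def tabL : List Seg :=
  [((240, 0), (300, 120)), ((234, 4), (273, 48)), ((306, 4), (267, 48)), ((300, 0), (240, 120)),
   ((248, 28), (640, 120)), ((240, 120), (300, 240)), ((234, 124), (273, 168)),
   ((306, 124), (267, 168)), ((300, 120), (240, 240)), ((248, 148), (544, 164)),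
   ((10, 160), (286, 160)), ((240, 120), (300, 120)), ((234, 4), (240, 0)), ((306, 4), (300, 0)),
   ((234, 4), (248, 28)), ((234, 124), (240, 120)), ((306, 124), (300, 120)),
   ((234, 124), (248, 148)), ((300, 240), (286, 160)), ((10, 160), (70, 176)),
   ((544, 164), (520, 150)), ((306, 4), (318, 304)), ((634, 4), (620, 365)),
   ((520, 150), (522, 345)), ((470, 176), (440, 56)), ((470, 176), (500, 66))]

/-- The segment of kind `k`. -/
def tab (k : ℕ) : Seg := tabL.getD k ((0, 0), (0, 0))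

/-- The segment of kind `k` in the tile in row `i` and column `j`. -/
def seg (i j k : ℕ) : Seg := tr (j * 400) (i * 240) (tab k)

/-- The segment with kind and tile offsets. -/
def nb (a : ℕ × ℕ × ℕ) : Seg := seg a.2.2 a.2.1 a.1

/-- Crossing partners: (kind, column offset, row offset), and the rank along the segment. -/
def XL : List (List ((ℕ × ℕ × ℕ) × ℕ)) :=
  [[((1, 1, 1), 0), ((4, 1, 1), 1), ((3, 1, 1), 2)],
   [((0, 1, 1), 0), ((4, 1, 1), 1), ((2, 1, 1), 2)],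
   [((3, 1, 1), 0), ((4, 1, 1), 1), ((1, 1, 1), 2)],
   [((2, 1, 1), 0), ((4, 1, 1), 1), ((0, 1, 1), 2)],
   [((0, 1, 1), 0), ((1, 1, 1), 1), ((2, 1, 1), 2), ((3, 1, 1), 3), ((21, 1, 1), 4),
    ((21, 1, 0), 5), ((24, 1, 1), 6), ((25, 1, 1), 7), ((23, 1, 0), 8), ((22, 1, 0), 9),
    ((22, 1, 1), 10)],
   [((6, 1, 1), 0), ((9, 1, 1), 1), ((10, 1, 1), 2), ((8, 1, 1), 3)],
   [((5, 1, 1), 0), ((9, 1, 1), 1), ((10, 1, 1), 2), ((7, 1, 1), 3)],
   [((8, 1, 1), 0), ((9, 1, 1), 1), ((10, 1, 1), 2), ((6, 1, 1), 3)],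
   [((7, 1, 1), 0), ((9, 1, 1), 1), ((10, 1, 1), 2), ((5, 1, 1), 3)],
   [((5, 1, 1), 0), ((6, 1, 1), 1), ((7, 1, 1), 2), ((8, 1, 1), 3), ((21, 1, 1), 4),
    ((24, 1, 1), 5), ((10, 2, 1), 6), ((25, 1, 1), 7), ((23, 1, 1), 8)],
   [((24, 0, 1), 0), ((9, 0, 1), 1), ((25, 0, 1), 2), ((23, 0, 1), 3), ((20, 0, 1), 4),
    ((22, 0, 1), 5), ((5, 1, 1), 6), ((6, 1, 1), 7), ((7, 1, 1), 8), ((8, 1, 1), 9)],
   [], [], [], [], [], [], [], [], [],
   [((10, 2, 1), 0)],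
   [((4, 1, 1), 0), ((9, 1, 1), 1), ((4, 1, 2), 2)],
   [((4, 1, 1), 0), ((10, 2, 1), 1), ((4, 1, 2), 2)],
   [((10, 2, 1), 0), ((9, 1, 1), 1), ((4, 1, 2), 2)],
   [((10, 2, 1), 0), ((9, 1, 1), 1), ((4, 1, 1), 2)],
   [((9, 1, 1), 0), ((10, 2, 1), 1), ((4, 1, 1), 2)]]

/-- The crossing partners of the kind `k`. -/
def X (k : ℕ) : List ((ℕ × ℕ × ℕ) × ℕ) := XL.getD k []

/-- classification of one pair -/
def ok1 (k : ℕ) (a : ℕ × ℕ × ℕ) : Bool :=
  decide (a = (k, 1, 1)) || noM (nb (k, 1, 1)) (nb a) || vM (nb (k, 1, 1)) (nb a) ||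
    (xM (nb (k, 1, 1)) (nb a) && (X k).any fun b => decide (b.1 = a))

theorem chk1 : ((List.range 26).all fun k => (List.range 26).all fun k' =>
    (List.range 3).all fun dx => (List.range 3).all fun dy => ok1 k (k', dx, dy)) = true := by
  decide +kernel

theorem ok1_true {k k' dx dy : ℕ} (hk : k < 26) (hk' : k' < 26) (hx : dx < 3) (hy : dy < 3) :
    ok1 k (k', dx, dy) = true := by
  have h := chk1
  simp only [List.all_eq_true, List.mem_range] at h
  exact h k hk k' hk' dx hx dy hy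

theorem chk2 : ∀ k < 26, ∀ a ∈ X k, ∀ b ∈ X k,
    (pT (nb (k, 1, 1)) (nb a.1) < pT (nb (k, 1, 1)) (nb b.1) → a.2 < b.2) ∧
    (pT (nb (k, 1, 1)) (nb a.1) = pT (nb (k, 1, 1)) (nb b.1) → a = b) := by
  decide +kernel

theorem chk3 : ∀ k < 26, (tab k).1 ≠ (tab k).2 ∧ (tab k).1.1 < 800 ∧ (tab k).2.1 < 800 ∧
    (tab k).1.2 < 480 ∧ (tab k).2.2 < 480 := by
  decide +kernel

/-- levels of the kinds -/
def cf (k : ℕ) : ℕ := [0, 1, 5, 6, 2, 0, 1, 5, 6, 2, 4].getD k 3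

/-- level of a kind in a state -/
def lv (σ : Bool) (k : ℕ) : ℕ := bif σ then cf k else 6 - cf k

/-- level of a partner in a local environment -/
def lvE (h0 h1 y : Bool) (a : ℕ × ℕ × ℕ) : ℕ :=
  lv (if a.1 < 5 then (if a.2.2 = 2 then h1 else h0) else y) a.1

/-- the constraint of a kind -/
def cnd (k : ℕ) (h0 h1 y : Bool) : Bool :=
  if k = 21 then !(h0 == h1 && h0 != y) else if k = 22 then !(h0 == h1 && h0 == y)
  else if k = 23 then h1 == y else if k = 24 then h0 == y else if k = 25 then h0 != y else true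

theorem chk4 : ∀ k < 26, ∀ a ∈ X k,
    (a.1.1 < 5 → a.1.2.1 = 1 ∧ (a.1.2.2 = 1 ∨ a.1.2.2 = 2)) ∧
    (5 ≤ a.1.1 → a.1.1 < 11 → a.1.2.2 = 1) := by
  decide +kernel

theorem chk5 : ∀ k < 26, ∀ h0 h1 y : Bool, ∀ a ∈ X k,
    lvE h0 h1 y a.1 ≠ lvE h0 h1 y (k, 1, 1) := by
  decide +kernel

theorem chk6 : ∀ k < 26, ∀ h0 h1 y : Bool, cnd k h0 h1 y = true → ∀ a ∈ X k, ∀ b ∈ X k,
    a.2 < b.2 → ∀ c ∈ X k, b.2 < c.2 →
    (lvE h0 h1 y a.1 < lvE h0 h1 y (k, 1, 1) ↔ lvE h0 h1 y b.1 < lvE h0 h1 y (k, 1, 1)) ∨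
    (lvE h0 h1 y b.1 < lvE h0 h1 y (k, 1, 1) ↔ lvE h0 h1 y c.1 < lvE h0 h1 y (k, 1, 1)) := by
  decide +kernel

theorem lv_fresh (σ τ : Bool) {k : ℕ} (hk : 11 ≤ k) : lv σ k = lv τ k := by
  have : cf k = 3 := by
    unfold cf
    rw [List.getD_eq_default _ _ (by simpa using hk)]
  cases σ <;> cases τ <;> simp [lv, this]

/-- growing a set of points along segments -/
def grow : List ℕ → List Pt → List Pt
  | [], kn => kn
  | k :: ks, kn =>
    if (tab k).1 ∈ kn ∨ (tab k).2 ∈ kn then grow ks ((tab k).1 :: (tab k).2 :: kn) else grow ks kn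

theorem grow_spec (Q : Pt → Prop) (hQ : ∀ k < 21, Q (tab k).1 ↔ Q (tab k).2) :
    ∀ ks : List ℕ, (∀ k ∈ ks, k < 21) → ∀ kn : List Pt, (∀ p ∈ kn, Q p) →
      ∀ p ∈ grow ks kn, Q p := by
  intro ks
  induction ks with
  | nil => intro _ kn h; exact h
  | cons k ks ih =>
    intro hk kn h
    have h1 := hQ k (hk k (by simp))
    unfold grow
    split_ifs with hc
    · refine ih (fun k' hk' => hk k' (by simp [hk'])) _ fun p hp => ?_
      have h2 : Q (tab k).1 := by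
        rcases hc with hc | hc
        · exact h _ hc
        · exact h1.2 (h _ hc)
      rcases List.mem_cons.1 hp with rfl | hp
      · exact h2
      rcases List.mem_cons.1 hp with rfl | hp
      · exact h1.1 h2
      · exact h p hp
    · exact ih (fun k' hk' => hk k' (by simp [hk'])) _ h

/-- the points joined to the base point inside a tile -/
def KN : List Pt :=
  grow [0, 8, 11, 12, 14, 15, 16, 17, 1, 3, 4, 5, 6, 7, 9, 13, 18, 20, 2, 10, 19] [(240, 0)]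

theorem KN_spec (Q : Pt → Prop) (hQ : ∀ k < 21, Q (tab k).1 ↔ Q (tab k).2) (h : Q (240, 0)) :
    ∀ p ∈ KN, Q p :=
  grow_spec Q hQ _ (by decide) _ (by simpa using h)

theorem chk7 : (∀ k < 26, (tab k).1 ∈ KN ∨ (21 ≤ k ∧ 400 ≤ (tab k).1.1 ∧
    ((tab k).1.1 - 400, (tab k).1.2) ∈ KN)) ∧ (240, 240) ∈ KN ∧ (640, 120) ∈ KN ∧
    (240, 120) ∈ KN := by
  decide +kernel

/-- three crossings in this order along the first segment -/
def ord3 (e a b c : ℕ × ℕ × ℕ) : Bool :=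
  xM (nb e) (nb a) && xM (nb e) (nb b) && xM (nb e) (nb c) &&
    decide (pT (nb e) (nb a) < pT (nb e) (nb b)) && decide (pT (nb e) (nb b) < pT (nb e) (nb c))

end Pool.Agent.Lib.MP_b4992a_lc.St
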